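import Pool.Agent.Lib.MP_876e19_co_ups.InvBase
import Pool.Agent.Lib.MP_876e19_co_ups.Atoms
import Pool.Agent.Lib.MP_876e19_co2.LPRound

/-!
# Arc-transitive graphs: connectivity = valency, shortest symmetric Menger systems (helper33)
-/

set_option autoImplicit false

namespace Pool.Agent.UPS.C12

open Finset IB

section conn

variable {W : Type*} [Fintype W] [DecidableEq W]

/-- arc-transitive -/
def ArcT (H : SimpleGraph W) : Prop :=
  ∀ A B A' B' : W, H.Adj A B → H.Adj A' B' → ∃ f : H ≃g H, f A = A' ∧ f B = B'

omit [Fintype W] [DecidableEq W] in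
lemma ArcT.vt {H : SimpleGraph W} (h : ArcT H) (hn : ∀ v, ∃ w, H.Adj v w) : VT H := by
  intro x y
  obtain ⟨x', hx⟩ := hn x
  obtain ⟨y', hy⟩ := hn y
  obtain ⟨f, hf, _⟩ := h x x' y y' hx hy
  exact ⟨f, hf⟩

/-- connectivity = valency -/
theorem lower_arc {H : SimpleGraph W} [DecidableRel H.Adj] {q : ℕ} (hc : H.Connected)
    (harc : ArcT H) (hT : VT H)
    (hreg : ∀ v, (univ.filter fun w => H.Adj v w).card = q) : Atoms.Lower H q := by
  by_contra h
  obtain ⟨k', τ, m, h1, h2, h3, h4, h5, h6, A, hA, hcard⟩ := Atoms.not_lower hc hT hreg h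
  obtain ⟨a, ha⟩ := hA.1.1
  have hex : ∃ a' ∈ A, H.Adj a a' := by
    by_contra hno
    push Not at hno
    have hsub : (univ.filter fun w => H.Adj a w) ⊆ Atoms.bd H A := by
      intro w hw
      rw [mem_filter] at hw
      rw [Atoms.mem_bd]
      exact ⟨fun hwA => hno w hwA hw.2, a, ha, hw.2⟩
    have := card_le_card hsub
    rw [hreg, hA.1.2.2] at this
    omega
  obtain ⟨a', ha', haa⟩ := hex
  have hclosed : ∀ v ∈ A, ∀ w, H.Adj v w → w ∈ A := by
    intro v hv w hvw
    obtain ⟨φ, e1, e2⟩ := harc a a' v w haa hvw
    have hB := hA.map φ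
    have hv' : v ∈ Atoms.im φ A := by
      rw [Atoms.mem_im, ← e1]; simpa using ha
    have hw' : w ∈ Atoms.im φ A := by
      rw [Atoms.mem_im, ← e2]; simpa using ha'
    have := Atoms.atom_eq h2 hA hB ⟨v, mem_inter.2 ⟨hv, hv'⟩⟩
    rw [this]
    exact hw'
  have hbd : Atoms.bd H A = ∅ := by
    rw [Finset.eq_empty_iff_forall_notMem]
    intro w hw
    rw [Atoms.mem_bd] at hw
    obtain ⟨hw1, u, hu, huw⟩ := hw
    exact hw1 (hclosed u hu w huw)
  have h7 := hA.1.2.2
  rw [hbd, card_empty] at h7
  have : 2 * 1 ≤ m * τ := Nat.mul_le_mul h4 h5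
  omega

end conn

section msys

variable {W : Type*} [Fintype W] {H : SimpleGraph W} {k : ℕ}

omit [Fintype W] in
lemma Far.symm' {x v : W} (h : Far H x v) : Far H v x := ⟨h.1.symm, fun h' => h.2 h'.symm⟩

/-- the reversed system -/
def rev (M : MSys H k) : MSys H k where
  P x v i := (M.P v x i).reverse
  path x v i h := (M.path v x i (Far.symm' h)).reverse
  two x v i h := by
    rw [SimpleGraph.Walk.length_reverse]
    exact M.two v x i (Far.symm' h)
  disj x v i j h w hi hj := by
    rw [SimpleGraph.Walk.support_reverse, List.mem_reverse] at hi hj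
    rcases M.disj v x i j (Far.symm' h) w hi hj with h1 | h1 | h1
    · exact Or.inr (Or.inl h1)
    · exact Or.inl h1
    · exact Or.inr (Or.inr h1)
  fst x v i h w hw ha := by
    rw [SimpleGraph.Walk.support_reverse, List.mem_reverse] at hw
    rw [SimpleGraph.Walk.getVert_reverse]
    exact M.lst v x i (Far.symm' h) w hw ha.symm
  lst x v i h w hw ha := by
    rw [SimpleGraph.Walk.support_reverse, List.mem_reverse] at hw
    rw [SimpleGraph.Walk.getVert_reverse, SimpleGraph.Walk.length_reverse]
    have h2 := M.two v x i (Far.symm' h)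
    have e : (M.P v x i).length - ((M.P v x i).length - 1) = 1 := by omega
    rw [e]
    exact M.fst v x i (Far.symm' h) w hw ha.symm
  len x v h := by
    have := M.len v x (Far.symm' h)
    simpa only [SimpleGraph.Walk.length_reverse] using this

/-- total length of the system of a pair -/
def tlen (M : MSys H k) (x v : W) : ℕ := ∑ i, (M.P x v i).length

lemma tlen_rev (M : MSys H k) (x v : W) : tlen (rev M) x v = tlen M v x := by
  unfold tlen rev
  simp only [SimpleGraph.Walk.length_reverse]

lemma tlen_tr (M : MSys H k) (γ : H ≃g H) (x v : W) : tlen (M.tr γ) x v = tlen M (γ x) (γ v) := by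
  unfold tlen MSys.tr
  simp only [length_trM]

/-- a shortest system for every pair, symmetric under reversal -/
theorem exists_min_sym [LinearOrder W] (M0 : MSys H k) :
    ∃ M : MSys H k, (∀ x v (M' : MSys H k), tlen M x v ≤ tlen M' x v) ∧
      ∀ x v, x < v → ∀ i, M.P v x i = (M.P x v i).reverse := by
  classical
  have : Nonempty (MSys H k) := ⟨M0⟩
  have key : ∀ x v : W, ∃ M : MSys H k, ∀ M' : MSys H k, tlen M x v ≤ tlen M' x v := by
    intro x v
    exact ⟨Function.argmin (fun M : MSys H k => tlen M x v),
      fun M' => Function.argmin_le (fun M : MSys H k => tlen M x v) M'⟩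
  choose C hC using key
  let D : ∀ x v : W, MSys H k := fun x v => if x ≤ v then C x v else rev (C v x)
  have hD : ∀ x v (M' : MSys H k), tlen (D x v) x v ≤ tlen M' x v := by
    intro x v M'
    by_cases h : x ≤ v
    · simp only [D, if_pos h]
      exact hC x v M'
    · simp only [D, if_neg h, tlen_rev]
      have := hC v x (rev M')
      rwa [tlen_rev] at this
  refine ⟨{ P := fun x v => (D x v).P x v
            path := fun x v => (D x v).path x v
            two := fun x v => (D x v).two x v
            disj := fun x v => (D x v).disj x v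
            fst := fun x v => (D x v).fst x v
            lst := fun x v => (D x v).lst x v
            len := fun x v => (D x v).len x v }, fun x v M' => hD x v M', ?_⟩
  intro x v hxv i
  have h1 : x ≤ v := hxv.le
  have h2 : ¬ v ≤ x := not_le.2 hxv
  simp only [D, if_pos h1, if_neg h2]
  rfl

lemma tlen_inv {M : MSys H k} (hM : ∀ x v (M' : MSys H k), tlen M x v ≤ tlen M' x v)
    (γ : H ≃g H) (x v : W) : tlen (M.tr γ) x v = tlen M x v := by
  refine le_antisymm ?_ (hM x v _)
  have h := hM (γ x) (γ v) (M.tr γ.symm)
  rw [tlen_tr] at h ⊢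
  simpa using h

open Classical in
/-- every edge is used at most once by a system -/
lemma ecount_le_one (M : MSys H k) (x v : W) (e : Sym2 W) : IB.ecount M x v e ≤ 1 := by
  unfold IB.ecount
  split_ifs with h
  · by_cases hex : ∃ i, e ∈ (M.P x v i).edges
    · obtain ⟨i, hi⟩ := hex
      rw [Finset.sum_eq_single i]
      · rw [if_pos hi]
      · intro j _ hj
        rw [if_neg]
        intro hje
        apply hj
        induction e with
        | _ a b =>
          have a1 := (M.P x v i).fst_mem_support_of_mem_edges hi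
          have a2 := (M.P x v j).fst_mem_support_of_mem_edges hje
          have b1 := (M.P x v i).snd_mem_support_of_mem_edges hi
          have b2 := (M.P x v j).snd_mem_support_of_mem_edges hje
          have hab := (M.P x v i).adj_of_mem_edges hi
          rcases M.disj x v j i h a a2 a1 with ha | ha | ha
          · rcases M.disj x v j i h b b2 b1 with hb | hb | hb
            · rw [ha, hb] at hab; exact absurd hab (H.loopless.irrefl _)
            · rw [ha, hb] at hab; exact absurd hab h.2
            · exact hb
          · rcases M.disj x v j i h b b2 b1 with hb | hb | hb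
            · rw [ha, hb] at hab; exact absurd hab.symm h.2
            · rw [ha, hb] at hab; exact absurd hab (H.loopless.irrefl _)
            · exact hb
          · exact ha
      · intro h'; exact absurd (mem_univ _) h'
    · push Not at hex
      rw [Finset.sum_eq_zero]
      · exact zero_le_one
      · intro i _
        rw [if_neg (hex i)]
  · exact zero_le_one

open Classical in
lemma ecount_nonneg (M : MSys H k) (x v : W) (e : Sym2 W) : 0 ≤ IB.ecount M x v e := by
  unfold IB.ecount
  split_ifs with h
  · exact Finset.sum_nonneg fun i _ => by split_ifs <;> norm_num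
  · exact le_refl _

open Classical in
/-- the number of edges of a path -/
lemma sum_edges {x v : W} (p : H.Walk x v) (hp : p.IsPath) :
    ∑ e : H.edgeSet, (if e.1 ∈ p.edges then (1 : ℝ) else 0) = p.length := by
  have h1 : ∑ e : H.edgeSet, (if e.1 ∈ p.edges then (1 : ℝ) else 0) =
      ∑ e ∈ H.edgeSet.toFinset, (if e ∈ p.edges then (1 : ℝ) else 0) :=
    (Finset.sum_subtype (p := fun e => e ∈ H.edgeSet) H.edgeSet.toFinset (fun e => by simp)
      (fun e => if e ∈ p.edges then (1 : ℝ) else 0)).symm
  rw [h1, Finset.sum_ite, Finset.sum_const_zero, add_zero, Finset.sum_const, nsmul_eq_mul, mul_one]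
  have h2 : H.edgeSet.toFinset.filter (fun e => e ∈ p.edges) = p.edges.toFinset := by
    ext e
    simp only [mem_filter, Set.mem_toFinset, List.mem_toFinset]
    exact ⟨fun h => h.2, fun h => ⟨p.edges_subset_edgeSet h, h⟩⟩
  rw [h2, List.toFinset_card_of_nodup hp.isTrail.edges_nodup, SimpleGraph.Walk.length_edges]

open Classical in
lemma sum_ecount (M : MSys H k) {x v : W} (h : Far H x v) :
    ∑ e : H.edgeSet, IB.ecount M x v e.1 = tlen M x v := by
  unfold IB.ecount tlen
  simp only [if_pos h]
  rw [Finset.sum_comm]
  push_cast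
  exact Finset.sum_congr rfl fun i _ => sum_edges _ (M.path x v i h)

open Classical in
lemma ecount_symm [LinearOrder W] {M : MSys H k}
    (hs : ∀ x v, x < v → ∀ i, M.P v x i = (M.P x v i).reverse) (γ : H ≃g H) (x v : W)
    (e : Sym2 W) : IB.ecount (M.tr γ) v x e = IB.ecount (M.tr γ) x v e := by
  unfold IB.ecount
  by_cases h : Far H x v
  · rw [if_pos h, if_pos (Far.symm' h)]
    refine Finset.sum_congr rfl fun i _ => ?_
    have : e ∈ ((M.tr γ).P v x i).edges ↔ e ∈ ((M.tr γ).P x v i).edges := by
      show e ∈ (trM γ M.P v x i).edges ↔ e ∈ (trM γ M.P x v i).edges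
      rw [mem_edges_trM, mem_edges_trM]
      have hne : γ x ≠ γ v := fun h' => h.1 (γ.injective h')
      rcases lt_or_gt_of_ne hne with h1 | h1
      · rw [hs _ _ h1 i, SimpleGraph.Walk.edges_reverse, List.mem_reverse]
      · rw [hs _ _ h1 i, SimpleGraph.Walk.edges_reverse, List.mem_reverse]
    by_cases h1 : e ∈ ((M.tr γ).P x v i).edges
    · rw [if_pos (this.2 h1), if_pos h1]
    · rw [if_neg (fun h' => h1 (this.1 h')), if_neg h1]
  · rw [if_neg h, if_neg (fun h' => h (Far.symm' h'))]

end msys

end Pool.Agent.UPS.C12
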