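import Pool.Agent.Lib.MP_876e19_co_c12.QBase

/-!
# Nearest rounding at an LP vertex; the base system of the quotient (helper33)
-/

set_option autoImplicit false

namespace Pool.Agent.UPS.C12

open Finset IB

/-- rounding at an LP vertex: all row errors are at most `(number of rows - 1) / 2` -/
theorem round_nearest {I O E : Type*} [Fintype I] [DecidableEq I] [Fintype O] [Nonempty O]
    [Fintype E] (a : I → O → E → ℝ) (h0 : ∀ i o e, 0 ≤ a i o e)
    (h1 : ∀ i o e, a i o e ≤ 1) (len : I → ℝ) (hlen : ∀ i o, ∑ e, a i o e = len i) (c : ℝ)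
    (hc : ∀ e, ∑ i, ∑ o, a i o e / (Fintype.card O : ℝ) = c) :
    ∃ ch : I → O, ∀ e, |∑ i, a i (ch i) e - c| ≤ ((Fintype.card E : ℝ) - 1) / 2 := by
  classical
  rcases isEmpty_or_nonempty E with hE | ⟨⟨e0⟩⟩
  · exact ⟨fun _ => Classical.arbitrary O, fun e => (hE.false e).elim⟩
  have hO : (0 : ℝ) < Fintype.card O := by exact_mod_cast Fintype.card_pos
  have hone : ∀ i : I, ∑ j : I × O, (1 / (Fintype.card O : ℝ)) * (if j.1 = i then 1 else 0) = 1 := by
    intro i
    rw [Fintype.sum_prod_type]
    rw [Finset.sum_eq_single i]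
    · simp only [if_true, mul_one, sum_const, card_univ, nsmul_eq_mul]
      field_simp
    · intro b _ hb
      simp [hb]
    · intro h; exact absurd (mem_univ _) h
  obtain ⟨y, y0, -, y2, y3, y4⟩ := UPS2.lp_excess (J := I × O) (R := I)
    (W := {e : E // e ≠ e0} → ℝ) Prod.fst (fun j i => if j.1 = i then 1 else 0)
    (fun j e => a j.1 j.2 e.1) (fun _ => 1 / (Fintype.card O : ℝ)) (fun _ => by positivity)
    (by
      intro y hy hrow i
      by_contra hno
      push Not at hno
      have h := hrow i
      rw [hone i] at h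
      rw [Finset.sum_eq_zero] at h
      · exact zero_ne_one h
      · intro j _
        by_cases hj : j.1 = i
        · rw [hno j hj, zero_mul]
        · rw [if_neg hj, mul_zero])
  -- row sums
  have hrow : ∀ i, ∑ o, y (i, o) = 1 := by
    intro i
    have h := y2 i
    rw [hone i, Fintype.sum_prod_type, Finset.sum_eq_single i] at h
    · simpa using h
    · intro b _ hb
      simp [hb]
    · intro h; exact absurd (mem_univ _) h
  -- couplings
  have hcoup1 : ∀ e, e ≠ e0 → ∑ i, ∑ o, y (i, o) * a i o e = c := by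
    intro e he
    have h := congrFun y3 ⟨e, he⟩
    simp only [Finset.sum_apply, Pi.smul_apply, smul_eq_mul] at h
    rw [Fintype.sum_prod_type, Fintype.sum_prod_type] at h
    rw [h, ← hc e]
    refine Finset.sum_congr rfl fun i _ => Finset.sum_congr rfl fun o _ => ?_
    ring
  have htot1 : ∑ e, ∑ i, ∑ o, y (i, o) * a i o e = ∑ i, len i := by
    rw [Finset.sum_comm]
    refine Finset.sum_congr rfl fun i _ => ?_
    rw [Finset.sum_comm]
    simp only [← Finset.mul_sum, hlen, ← Finset.sum_mul, hrow, one_mul]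
  have htot2 : ∑ _e : E, c = ∑ i, len i := by
    have : ∑ e, ∑ i, ∑ o, a i o e / (Fintype.card O : ℝ) = ∑ i, len i := by
      rw [Finset.sum_comm]
      refine Finset.sum_congr rfl fun i _ => ?_
      rw [Finset.sum_comm]
      simp only [← Finset.sum_div, hlen, Finset.sum_const, card_univ, nsmul_eq_mul]
      field_simp
    rw [← this]
    exact Finset.sum_congr rfl fun e _ => (hc e).symm
  have hcoup : ∀ e, ∑ i, ∑ o, y (i, o) * a i o e = c := by
    intro e
    by_cases he : e = e0
    · subst he
      have h2 := htot1.trans htot2.symm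
      rw [← Finset.add_sum_erase _ _ (mem_univ e),
        ← Finset.add_sum_erase _ (fun _ : E => c) (mem_univ e)] at h2
      have h3 : ∑ x ∈ univ.erase e, ∑ i, ∑ o, y (i, o) * a i o x = ∑ _x ∈ univ.erase e, c :=
        Finset.sum_congr rfl fun x hx => hcoup1 x (Finset.ne_of_mem_erase hx)
      rw [h3] at h2
      linarith
    · exact hcoup1 e he
  -- the best option of every item
  have hbest : ∀ i, ∃ o, ∀ o', y (i, o') ≤ y (i, o) := by
    intro i
    obtain ⟨o, _, ho⟩ := (univ : Finset O).exists_max_image (fun o => y (i, o)) univ_nonempty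
    exact ⟨o, fun o' => ho o' (mem_univ _)⟩
  choose ch hch using hbest
  refine ⟨ch, fun e => ?_⟩
  have hexc : ∀ i, 1 - y (i, ch i) ≤
      (((univ.filter fun j : I × O => j.1 = i ∧ y j ≠ 0).card - 1 : ℕ) : ℝ) / 2 := by
    intro i
    set s := (univ.filter fun j : I × O => j.1 = i ∧ y j ≠ 0) with hs
    have hsum : ∑ j ∈ s, y j = 1 := by
      rw [← hrow i, hs, Finset.sum_filter, Fintype.sum_prod_type, Finset.sum_eq_single i]
      · refine Finset.sum_congr rfl fun o _ => ?_
        by_cases h : y (i, o) = 0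
        · simp [h]
        · simp [h]
      · intro b _ hb
        simp [hb]
      · intro h; exact absurd (mem_univ _) h
    have hle : 1 ≤ (s.card : ℝ) * y (i, ch i) := by
      rw [← hsum, ← nsmul_eq_mul]
      refine Finset.sum_le_card_nsmul _ _ _ fun j hj => ?_
      rw [hs, mem_filter] at hj
      obtain ⟨j1, j2⟩ := j
      have : j1 = i := hj.2.1
      subst this
      exact hch j1 j2
    have hspos : 1 ≤ s.card := by
      rcases Nat.eq_zero_or_pos s.card with h | h
      · rw [h] at hle; norm_num at hle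
      · exact h
    rw [Nat.cast_sub hspos, Nat.cast_one]
    rcases eq_or_lt_of_le hspos with h | h
    · rw [← h] at hle ⊢
      push_cast at hle ⊢
      linarith
    · have hk : (2 : ℝ) ≤ s.card := by exact_mod_cast h
      have h5 : 1 / (s.card : ℝ) ≤ y (i, ch i) := by
        rw [div_le_iff₀ (by linarith)]
        linarith
      have h6 : 1 - 1 / (s.card : ℝ) ≤ ((s.card : ℝ) - 1) / 2 := by
        have : 1 - 1 / (s.card : ℝ) = ((s.card : ℝ) - 1) / s.card := by field_simp
        rw [this]
        exact div_le_div_of_nonneg_left (by linarith) (by norm_num) hk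
      linarith
  have hitem : ∀ i, |a i (ch i) e - ∑ o, y (i, o) * a i o e| ≤ 1 - y (i, ch i) := by
    intro i
    have e1 : ∑ o, y (i, o) * a i o e = y (i, ch i) * a i (ch i) e +
        ∑ o ∈ univ.erase (ch i), y (i, o) * a i o e :=
      (Finset.add_sum_erase _ _ (mem_univ _)).symm
    have e2 : y (i, ch i) + ∑ o ∈ univ.erase (ch i), y (i, o) = 1 :=
      (Finset.add_sum_erase univ (fun o => y (i, o)) (mem_univ (ch i))).trans (hrow i)
    have l1 : 0 ≤ ∑ o ∈ univ.erase (ch i), y (i, o) * a i o e :=
      Finset.sum_nonneg fun o _ => mul_nonneg (y0 _) (h0 _ _ _)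
    have l2 : ∑ o ∈ univ.erase (ch i), y (i, o) * a i o e ≤ ∑ o ∈ univ.erase (ch i), y (i, o) := by
      refine Finset.sum_le_sum fun o _ => ?_
      have := mul_le_mul_of_nonneg_left (h1 i o e) (y0 (i, o))
      linarith
    have l3 : 0 ≤ 1 - y (i, ch i) := by
      have : 0 ≤ ∑ o ∈ univ.erase (ch i), y (i, o) := Finset.sum_nonneg fun o _ => y0 _
      linarith
    have l4 : 0 ≤ (1 - y (i, ch i)) * a i (ch i) e := mul_nonneg l3 (h0 _ _ _)
    have l5 : (1 - y (i, ch i)) * a i (ch i) e ≤ 1 - y (i, ch i) := by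
      have := mul_le_mul_of_nonneg_left (h1 i (ch i) e) l3
      linarith
    rw [e1, abs_le]
    constructor
    · linarith
    · linarith
  have hsum : ∑ i, a i (ch i) e - c = ∑ i, (a i (ch i) e - ∑ o, y (i, o) * a i o e) := by
    rw [Finset.sum_sub_distrib, hcoup e]
  rw [hsum]
  refine (Finset.abs_sum_le_sum_abs _ _).trans ?_
  refine (Finset.sum_le_sum fun i _ => (hitem i).trans (hexc i)).trans ?_
  rw [← Finset.sum_div]
  refine div_le_div_of_nonneg_right ?_ (by norm_num)
  rw [← Nat.cast_sum]
  have hfin : Module.finrank ℝ ({e : E // e ≠ e0} → ℝ) = Fintype.card E - 1 := by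
    rw [Module.finrank_fintype_fun_eq_card, Fintype.card_subtype_compl, Fintype.card_subtype_eq]
  rw [hfin] at y4
  have hE1 : 1 ≤ Fintype.card E := Fintype.card_pos_iff.2 ⟨e0⟩
  have : ((∑ i, ((univ.filter fun j : I × O => j.1 = i ∧ y j ≠ 0).card - 1) : ℕ) : ℝ) ≤
      ((Fintype.card E - 1 : ℕ) : ℝ) := by exact_mod_cast y4
  rw [Nat.cast_sub hE1, Nat.cast_one] at this
  exact this

end Pool.Agent.UPS.C12
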