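import Pool.Agent.Lib.MP_876e19_co_c12.QRound

/-!
# The base system of the quotient (helper33)
-/

set_option autoImplicit false

namespace Pool.Agent.UPS.C12

open Finset IB

/-- sum over the pairs `x < v` -/
def lsum {W M : Type*} [Fintype W] [LinearOrder W] [AddCommMonoid M] (f : W → W → M) : M :=
  ∑ x, ∑ v, if x < v then f x v else 0

lemma two_lsum {W : Type*} [Fintype W] [LinearOrder W] (f : W → W → ℝ)
    (hs : ∀ x v, f v x = f x v) (h0 : ∀ x, f x x = 0) :
    ∑ x, ∑ v, f x v = 2 * lsum f := by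
  have h1 : ∀ x v, f x v = (if x < v then f x v else 0) + (if v < x then f x v else 0) := by
    intro x v
    rcases lt_trichotomy x v with h | h | h
    · rw [if_pos h, if_neg (not_lt.2 h.le), add_zero]
    · subst h
      rw [if_neg (lt_irrefl _), h0, add_zero]
    · rw [if_neg (not_lt.2 h.le), if_pos h, zero_add]
  have h2 : ∑ x, ∑ v, f x v = lsum f + ∑ x, ∑ v, (if v < x then f x v else 0) := by
    unfold lsum
    rw [← Finset.sum_add_distrib]
    refine Finset.sum_congr rfl fun x _ => ?_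
    rw [← Finset.sum_add_distrib]
    exact Finset.sum_congr rfl fun v _ => h1 x v
  have h3 : ∑ x, ∑ v, (if v < x then f x v else 0) = lsum f := by
    unfold lsum
    rw [Finset.sum_comm]
    exact Finset.sum_congr rfl fun x _ => Finset.sum_congr rfl fun v _ => by rw [hs]
  rw [h2, h3]; ring

section base

variable {W : Type*} [Fintype W] [LinearOrder W]

open Classical in
/-- usage of the edge `e` by the far pairs -/
noncomputable def fuse {H : SimpleGraph W} {q b : ℕ} (R : ∀ x v : W, Fin b → Fin q → H.Walk x v)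
    (e : Sym2 W) : ℕ :=
  lsum fun x v => if Far H x v then ∑ j, ∑ i, (if e ∈ (R x v j i).edges then 1 else 0) else 0

/-- base system: `b` Menger systems for every far pair `x < v`, with balanced edge usage -/
structure BaseSys (H : SimpleGraph W) (q b : ℕ) where
  R : ∀ x v : W, Fin b → Fin q → H.Walk x v
  path : ∀ x v j i, Far H x v → (R x v j i).IsPath
  fst : ∀ x v j i, Far H x v → ∀ w w', w ∈ (R x v j i).support → w' ∈ (R x v j i).support →
    H.Adj x w → H.Adj x w' → w = w'
  lst : ∀ x v j i, Far H x v → ∀ w w', w ∈ (R x v j i).support → w' ∈ (R x v j i).support →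
    H.Adj w v → H.Adj w' v → w = w'
  disj : ∀ x v j i i', Far H x v → ∀ w, w ∈ (R x v j i).support → w ∈ (R x v j i').support →
    w ≠ x → w ≠ v → i = i'
  bal : ∀ e ∈ H.edgeSet, ∀ e' ∈ H.edgeSet, fuse R e ≤ fuse R e' + (H.edgeSet.ncard - 1)

theorem exists_base {H : SimpleGraph W} {q : ℕ} (hc : H.Connected) (harc : ArcT H)
    (hn : ∀ v, ∃ w, H.Adj v w) (hreg : ∀ v, (H.neighborSet v).ncard = q) (b : ℕ) :
    Nonempty (BaseSys H q b) := by
  classical
  have hT := harc.vt hn
  have hreg' : ∀ v, (univ.filter fun w => H.Adj v w).card = q := by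
    intro v
    rw [← hreg v, ← Set.ncard_coe_finset]
    congr 1
    ext w; simp
  have hlow := lower_arc hc harc hT hreg'
  obtain ⟨M0⟩ := exists_msys hc hT q (fun x => (hreg x).ge)
    (fun x v _ S hx hv hS => Atoms.exists_walk_avoiding hlow hS hx hv)
  obtain ⟨M, hM, hs⟩ := exists_min_sym M0
  let I := {p : W × W // p.1 < p.2 ∧ Far H p.1 p.2} × Fin b
  let a : I → (H ≃g H) → H.edgeSet → ℝ := fun i γ e => IB.ecount (M.tr γ) i.1.1.1 i.1.1.2 e.1
  -- reindexing
  have hreidx : ∀ f : W → W → ℝ, (∀ x v, ¬ Far H x v → f x v = 0) →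
      ∑ i : I, f i.1.1.1 i.1.1.2 = b * lsum f := by
    intro f hf
    rw [Fintype.sum_prod_type]
    simp only [Finset.sum_const, card_univ, Fintype.card_fin, nsmul_eq_mul]
    rw [← Finset.mul_sum]
    congr 1
    unfold lsum
    rw [← Finset.sum_product', Finset.univ_product_univ]
    rw [← Finset.sum_subtype (univ.filter fun p : W × W => p.1 < p.2 ∧ Far H p.1 p.2)
      (fun p => by simp) (fun p => f p.1 p.2)]
    rw [Finset.sum_filter]
    refine Finset.sum_congr rfl fun p _ => ?_
    by_cases h1 : p.1 < p.2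
    · by_cases h2 : Far H p.1 p.2
      · rw [if_pos ⟨h1, h2⟩, if_pos h1]
      · rw [if_neg (fun h => h2 h.2), if_pos h1, hf _ _ h2]
    · rw [if_neg (fun h => h1 h.1), if_neg h1]
  have hE : ∀ e ∈ H.edgeSet, ∀ e' ∈ H.edgeSet, etot M e = etot M e' := by
    intro e he e' he'
    induction e with
    | _ x y =>
      induction e' with
      | _ x' y' =>
        obtain ⟨φ, h1, h2⟩ := harc x y x' y' he he'
        have := etot_inv M φ s(x, y)
        rw [Sym2.map_mk, h1, h2] at this
        exact this.symm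
  have hcc : ∃ c : ℝ, ∀ e ∈ H.edgeSet, etot M e = c := by
    by_cases h : ∃ e, e ∈ H.edgeSet
    · obtain ⟨e, he⟩ := h
      exact ⟨etot M e, fun e' he' => hE e' he' e he⟩
    · push Not at h
      exact ⟨0, fun e he => absurd he (h e)⟩
  obtain ⟨c, hcE⟩ := hcc
  obtain ⟨ch, hch⟩ := round_nearest a
    (fun i γ e => ecount_nonneg _ _ _ _) (fun i γ e => ecount_le_one _ _ _ _)
    (fun i => (tlen M i.1.1.1 i.1.1.2 : ℝ))
    (fun i γ => by
      show ∑ e : H.edgeSet, IB.ecount (M.tr γ) i.1.1.1 i.1.1.2 e.1 = _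
      have h1 := sum_ecount (M.tr γ) i.1.2.2
      rw [tlen_inv hM γ] at h1
      rw [← h1])
    (b * (c / 2) / Fintype.card (H ≃g H)) (by
      intro e
      show ∑ i : I, ∑ γ, IB.ecount (M.tr γ) i.1.1.1 i.1.1.2 e.1 / (Fintype.card (H ≃g H) : ℝ) = _
      rw [hreidx (fun x v => ∑ γ, IB.ecount (M.tr γ) x v e.1 / (Fintype.card (H ≃g H) : ℝ))]
      · have h1 := two_lsum
          (fun x v => ∑ γ, IB.ecount (M.tr γ) x v e.1 / (Fintype.card (H ≃g H) : ℝ))
          (fun x v => Finset.sum_congr rfl fun γ _ => by rw [ecount_symm hs])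
          (fun x => Finset.sum_eq_zero fun γ _ => by
            unfold IB.ecount
            rw [if_neg (fun h => h.1 rfl), zero_div])
        have h2 : ∑ x, ∑ v, ∑ γ, IB.ecount (M.tr γ) x v e.1 / (Fintype.card (H ≃g H) : ℝ) =
            etot M e.1 / Fintype.card (H ≃g H) := by
          unfold etot
          simp only [Finset.sum_div]
        rw [h2, hcE _ e.2] at h1
        have h3 : lsum (fun x v => ∑ γ, IB.ecount (M.tr γ) x v e.1 /
            (Fintype.card (H ≃g H) : ℝ)) = c / Fintype.card (H ≃g H) / 2 := by linarith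
        rw [h3]
        ring
      · intro x v h
        refine Finset.sum_eq_zero fun γ _ => ?_
        unfold IB.ecount
        rw [if_neg h, zero_div])
  let g : W → W → Fin b → (H ≃g H) := fun x v j =>
    if h : x < v ∧ Far H x v then ch (⟨(x, v), h⟩, j) else SimpleGraph.Iso.refl
  let R : ∀ x v : W, Fin b → Fin q → H.Walk x v := fun x v j i => trM (g x v j) M.P x v i
  have hR : ∀ e : H.edgeSet, (fuse R e.1 : ℝ) = ∑ i : I, a i (ch i) e := by
    intro e
    unfold fuse lsum
    push_cast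
    rw [← Finset.sum_product', Finset.univ_product_univ]
    have h1 : ∑ i : I, a i (ch i) e =
        ∑ p : {p : W × W // p.1 < p.2 ∧ Far H p.1 p.2}, ∑ j : Fin b, a (p, j) (ch (p, j)) e :=
      Fintype.sum_prod_type _
    have h2 : ∀ p : {p : W × W // p.1 < p.2 ∧ Far H p.1 p.2},
        ∑ j : Fin b, a (p, j) (ch (p, j)) e =
        (fun p : W × W => ∑ j : Fin b, IB.ecount (M.tr (g p.1 p.2 j)) p.1 p.2 e.1) p.1 := by
      intro p
      refine Finset.sum_congr rfl fun j _ => ?_
      show IB.ecount (M.tr (ch (p, j))) p.1.1 p.1.2 e.1 = _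
      have : g p.1.1 p.1.2 j = ch (p, j) := by
        simp only [g]
        rw [dif_pos p.2]
      rw [this]
    rw [h1, Finset.sum_congr rfl fun p _ => h2 p]
    rw [← Finset.sum_subtype (univ.filter fun p : W × W => p.1 < p.2 ∧ Far H p.1 p.2)
      (fun p => by simp)
      (fun p : W × W => ∑ j : Fin b, IB.ecount (M.tr (g p.1 p.2 j)) p.1 p.2 e.1)]
    rw [Finset.sum_filter]
    refine Finset.sum_congr rfl fun p _ => ?_
    by_cases h1 : p.1 < p.2
    · by_cases h2 : Far H p.1 p.2
      · rw [if_pos h1, if_pos (show p.1 < p.2 ∧ Far H p.1 p.2 from ⟨h1, h2⟩), if_pos h2]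
        refine Finset.sum_congr rfl fun j _ => ?_
        unfold IB.ecount
        rw [if_pos h2]
        refine Finset.sum_congr rfl fun i _ => ?_
        show (if e.1 ∈ (trM (g p.1 p.2 j) M.P p.1 p.2 i).edges then (1 : ℝ) else 0) = _
        by_cases h3 : e.1 ∈ (trM (g p.1 p.2 j) M.P p.1 p.2 i).edges
        · rw [if_pos h3, if_pos (show e.1 ∈ ((M.tr (g p.1 p.2 j)).P p.1 p.2 i).edges from h3)]
        · rw [if_neg h3, if_neg (show ¬ e.1 ∈ ((M.tr (g p.1 p.2 j)).P p.1 p.2 i).edges from h3)]
      · rw [if_pos h1, if_neg (show ¬ (p.1 < p.2 ∧ Far H p.1 p.2) from fun h => h2 h.2), if_neg h2]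
    · rw [if_neg h1, if_neg (show ¬ (p.1 < p.2 ∧ Far H p.1 p.2) from fun h => h1 h.1)]
  refine ⟨{ R := R
            path := fun x v j i h => (M.tr (g x v j)).path x v i h
            fst := ?_
            lst := ?_
            disj := ?_
            bal := ?_ }⟩
  · intro x v j i h w w' hw hw' ha ha'
    rw [(M.tr (g x v j)).fst x v i h w hw ha, (M.tr (g x v j)).fst x v i h w' hw' ha']
  · intro x v j i h w w' hw hw' ha ha'
    rw [(M.tr (g x v j)).lst x v i h w hw ha, (M.tr (g x v j)).lst x v i h w' hw' ha']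
  · intro x v j i i' h w hw hw' h1 h2
    rcases (M.tr (g x v j)).disj x v i i' h w hw hw' with h3 | h3 | h3
    · exact absurd h3 h1
    · exact absurd h3 h2
    · exact h3
  · intro e he e' he'
    have h1 := hch ⟨e, he⟩
    have h2 := hch ⟨e', he'⟩
    rw [← hR] at h1 h2
    rw [abs_le] at h1 h2
    have h3 : (fuse R e : ℝ) ≤ fuse R e' + ((Fintype.card H.edgeSet : ℝ) - 1) := by
      have a1 := h1.2
      have a2 := h2.1
      simp only at a1 a2
      linarith
    have h4 : H.edgeSet.ncard = Fintype.card H.edgeSet := by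
      rw [← Nat.card_eq_fintype_card, Nat.card_coe_set_eq]
    have h5 : 1 ≤ Fintype.card H.edgeSet := Fintype.card_pos_iff.2 ⟨⟨e, he⟩⟩
    rw [h4]
    have h6 : ((fuse R e : ℕ) : ℝ) ≤ ((fuse R e' + (Fintype.card H.edgeSet - 1) : ℕ) : ℝ) := by
      rw [Nat.cast_add, Nat.cast_sub h5, Nat.cast_one]
      exact h3
    exact_mod_cast h6

end base

end Pool.Agent.UPS.C12
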